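import Pool.Agent.Q95.HQ.F

namespace Pool.Agent.Results.MP_18c163_nt.AllShifts

open PowerSeries

/-- rising factorial `(x)_n = x (x+1) ... (x+n-1)` -/
def poch (x : ℚ) (n : ℕ) : ℚ := ∏ i ∈ Finset.range n, (x + i)

/-- the power series `₂F₁(α, β; γ; 4t)` in `t` -/
noncomputable def hyp (α β γ : ℚ) : ℚ⟦X⟧ :=
  mk fun n => poch α n * poch β n / (poch γ n * (n.factorial : ℚ)) * 4 ^ n

theorem result : ∀ a b c d e f : ℕ,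
    ∃ Q : ℚ⟦X⟧, Q * hyp (1 / 4 + d) (1 / 4 + e) (1 / 2 + f) =
        hyp (3 / 4 + a) (3 / 4 + b) (3 / 2 + c) ∧
      (∀ Q' : ℚ⟦X⟧, Q' * hyp (1 / 4 + d) (1 / 4 + e) (1 / 2 + f) =
        hyp (3 / 4 + a) (3 / 4 + b) (3 / 2 + c) → Q' = Q) ∧
      ∀ n, Odd (coeff n Q).den := by
  intro a b c d e f
  have hN : Q95.HQ.V (hyp (3 / 4 + a) (3 / 4 + b) (3 / 2 + c)) := Q95.HQ.V_N a b c
  have hD : Q95.HQ.V (hyp (1 / 4 + d) (1 / 4 + e) (1 / 2 + f)) := Q95.HQ.V_D d e f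
  have h0 : coeff 0 (hyp (1 / 4 + d) (1 / 4 + e) (1 / 2 + f)) = 1 := Q95.HQ.hyp_zero _ _ _
  have hc : constantCoeff (hyp (1 / 4 + d) (1 / 4 + e) (1 / 2 + f)) ≠ 0 := by
    rw [← coeff_zero_eq_constantCoeff_apply, h0]; norm_num
  have hne : hyp (1 / 4 + d) (1 / 4 + e) (1 / 2 + f) ≠ 0 := by
    intro h
    rw [h] at hc
    simp at hc
  have hQ : hyp (3 / 4 + a) (3 / 4 + b) (3 / 2 + c) * (hyp (1 / 4 + d) (1 / 4 + e) (1 / 2 + f))⁻¹ *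
      hyp (1 / 4 + d) (1 / 4 + e) (1 / 2 + f) = hyp (3 / 4 + a) (3 / 4 + b) (3 / 2 + c) := by
    rw [mul_assoc, PowerSeries.inv_mul_cancel _ hc, mul_one]
  refine ⟨_, hQ, ?_, fun n => (Q95.HQ.quot_int hN hD h0 n).den⟩
  intro Q' h
  exact mul_right_cancel₀ hne (h.trans hQ.symm)

end Pool.Agent.Results.MP_18c163_nt.AllShifts
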